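import Mathlib
import Pool.Agent.Helper68.LM2.St

/-!
# Project LM2, module BAD
-/

set_option autoImplicit false

open MeasureTheory Set Filter Topology
open scoped ENNReal

namespace Pool.Agent.Helper15.LM2

open Pool.Agent.Helper68.LM2 Pool.Agent.Helper68.LM

theorem bad_floor (q j : ℤ) (y : ℝ) :
    ⌊y / (2 : ℝ) ^ q⌋ = j ↔ (2 : ℝ) ^ q * j ≤ y ∧ y < (2 : ℝ) ^ q * j + (2 : ℝ) ^ q := by
  have hq : (0 : ℝ) < (2 : ℝ) ^ q := by positivity
  rw [Int.floor_eq_iff, le_div_iff₀ hq, div_lt_iff₀ hq]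
  constructor
  · rintro ⟨h1, h2⟩
    constructor
    · linarith
    · nlinarith
  · rintro ⟨h1, h2⟩
    constructor
    · linarith
    · nlinarith

theorem bad_floor0 (q j : ℤ) : ⌊(2 : ℝ) ^ q * j / (2 : ℝ) ^ q⌋ = j := by
  rw [bad_floor]
  have hq : (0 : ℝ) < (2 : ℝ) ^ q := by positivity
  constructor <;> linarith

/-- the primitive of a function of mean zero supported on an interval -/
theorem bad_prim (e : ℝ → ℝ) (A L : ℝ) (hi : Integrable e) (h0 : ∫ x, e x = 0)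
    (hs : ∀ x, x ∉ Ico A (A + L) → e x = 0) (x : ℝ) :
    ‖∫ t in Iic x, e t‖ₑ ≤ (∫⁻ t, ‖e t‖ₑ) * (Ico A (A + L)).indicator (fun _ => 1) x := by
  by_cases hx : x ∈ Ico A (A + L)
  · rw [indicator_of_mem hx, mul_one]
    exact (enorm_integral_le_lintegral_enorm _).trans (setLIntegral_le_lintegral _ _)
  · rw [indicator_of_notMem hx, mul_zero]
    have hz : ∫ t in Iic x, e t = 0 := by
      by_cases hxA : x < A
      · refine setIntegral_eq_zero_of_forall_eq_zero fun t ht => hs t ?_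
        rw [mem_Ico]
        intro h
        have : t ≤ x := ht
        linarith [h.1]
      · have hxL : A + L ≤ x := by
          by_contra hc
          exact hx ⟨not_lt.1 hxA, not_le.1 hc⟩
        rw [setIntegral_eq_integral_of_forall_compl_eq_zero, h0]
        intro t ht
        refine hs t ?_
        rw [mem_Ico]
        intro h
        have : ¬ t ≤ x := ht
        linarith [h.2]
    rw [hz, enorm_zero]

theorem bad_int (e : ℝ → ℝ) (A L : ℝ) (hi : Integrable e) (h0 : ∫ x, e x = 0)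
    (hs : ∀ x, x ∉ Ico A (A + L) → e x = 0) (u v : ℝ) :
    ‖∫ x in u..v, e x‖ₑ ≤ (∫⁻ t, ‖e t‖ₑ) * ((Ico A (A + L)).indicator (fun _ => 1) v +
      (Ico A (A + L)).indicator (fun _ => 1) u) := by
  rw [← intervalIntegral.integral_Iic_sub_Iic hi.integrableOn hi.integrableOn, mul_add]
  exact (enorm_sub_le).trans (add_le_add (bad_prim e A L hi h0 hs v) (bad_prim e A L hi h0 hs u))

/-- the inner integral over the arc -/
theorem bad_arc (e : ℝ → ℝ) (A L : ℝ) (hi : Integrable e) (h0 : ∫ x, e x = 0)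
    (hs : ∀ x, x ∉ Ico A (A + L) → e x = 0) (K x s t : ℝ) (hK : 0 < K) (hst : s ≤ t) :
    ‖∫ w in Icc s t, e (x - K * w)‖ₑ ≤ ENNReal.ofReal K⁻¹ * ((∫⁻ t, ‖e t‖ₑ) *
      ((Ico A (A + L)).indicator (fun _ => 1) (x - K * s) +
      (Ico A (A + L)).indicator (fun _ => 1) (x - K * t))) := by
  rw [integral_Icc_eq_integral_Ioc, ← intervalIntegral.integral_of_le hst,
    intervalIntegral.integral_comp_sub_mul e hK.ne' x, smul_eq_mul, enorm_mul]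
  have h1 : ‖K⁻¹‖ₑ = ENNReal.ofReal K⁻¹ := by
    rw [Real.enorm_eq_ofReal (by positivity)]
  rw [h1]
  exact mul_le_mul_right (bad_int e A L hi h0 hs _ _) _

theorem bad_meas (A L K c d : ℝ) : Measurable (fun p : ℝ × ℝ =>
    (Ico A (A + L)).indicator (fun _ => (1 : ℝ≥0∞)) (p.1 - K * (c * p.2) - K * d)) := by
  have h : Measurable ((Ico A (A + L)).indicator (fun _ => (1 : ℝ≥0∞))) :=
    measurable_const.indicator measurableSet_Ico
  exact h.comp (by fun_prop)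

theorem bad_tr (A L : ℝ) (c : ℝ) :
    ∫⁻ a : ℝ, (Ico A (A + L)).indicator (fun _ => (1 : ℝ≥0∞)) (a - c) = ENNReal.ofReal L := by
  rw [lintegral_sub_right_eq_self (fun a => (Ico A (A + L)).indicator (fun _ => (1 : ℝ≥0∞)) a) c,
    lintegral_indicator measurableSet_Ico, setLIntegral_const, one_mul, Real.volume_Ico]
  congr 1
  ring

/-- the average over the arc and over `α` -/
theorem bad_u (τ : ℕ → ℝ) (m₀ : ℕ) (hτ : Seq τ m₀) (n : ℕ) (k : ℤ) (e : ℝ → ℝ) (A L : ℝ)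
    (hL : 0 ≤ L) (hm : Measurable e) (hb : ∃ K : ℝ, ∀ x, |e x| ≤ K)
    (hi : Integrable e) (h0 : ∫ x, e x = 0) (hs : ∀ x, x ∉ Ico A (A + L) → e x = 0) :
    ∫⁻ a, ‖∫ s, e (a - (2 : ℝ) ^ k * s) ∂(rho τ m₀ n)‖ₑ ≤
      ENNReal.ofReal (4 * (((2 : ℝ) ^ k)⁻¹ * L)) * ∫⁻ t, ‖e t‖ₑ := by
  obtain ⟨η, hη⟩ : ∃ η : ℝ, η = (2⁻¹ : ℝ) ^ (m₀ + n) := ⟨_, rfl⟩
  obtain ⟨K, hK⟩ : ∃ K : ℝ, K = (2 : ℝ) ^ k := ⟨_, rfl⟩
  have hK0 : 0 < K := by rw [hK]; positivity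
  obtain ⟨Mn, hMn⟩ : ∃ Mn : ℝ≥0∞, Mn = ∫⁻ t, ‖e t‖ₑ := ⟨_, rfl⟩
  have hst : τ (n + 1) ≤ τ n := (hτ.1 (Nat.lt_succ_self n)).le
  rw [← hK, ← hMn]
  have hφm : Measurable (fun w : ℝ × ℝ => w.1 + η * w.2) := by fun_prop
  have hpt : ∀ a : ℝ, ‖∫ s, e (a - K * s) ∂(rho τ m₀ n)‖ₑ ≤
      ∫⁻ α in Icc (-1 : ℝ) 1, ENNReal.ofReal K⁻¹ * (Mn *
      ((Ico A (A + L)).indicator (fun _ => 1) (a - K * (η * α) - K * τ (n + 1)) +
      (Ico A (A + L)).indicator (fun _ => 1) (a - K * (η * α) - K * τ n))) := by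
    intro a
    have hem : Measurable (fun s => e (a - K * s)) := hm.comp (by fun_prop)
    unfold rho
    rw [← hη, integral_map hφm.aemeasurable hem.aestronglyMeasurable]
    have hint : Integrable (fun w : ℝ × ℝ => e (a - K * (w.1 + η * w.2)))
        ((volume.restrict (Icc (τ (n + 1)) (τ n))).prod (volume.restrict (Icc (-1 : ℝ) 1))) := by
      obtain ⟨B, hB⟩ := hb
      refine Integrable.of_bound (hm.comp (by fun_prop)).aestronglyMeasurable B ?_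
      exact Eventually.of_forall fun w => by rw [Real.norm_eq_abs]; exact hB _
    rw [integral_prod_symm _ hint]
    refine (enorm_integral_le_lintegral_enorm _).trans (lintegral_mono fun α => ?_)
    have e1 : (fun x => e (a - K * (x + η * α))) = fun x => e (a - K * (η * α) - K * x) := by
      funext x
      congr 1
      ring
    show ‖∫ x in Icc (τ (n + 1)) (τ n), e (a - K * (x + η * α))‖ₑ ≤ _
    rw [e1, hMn]
    exact bad_arc e A L hi h0 hs K _ _ _ hK0 hst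
  refine (lintegral_mono hpt).trans ?_
  rw [lintegral_lintegral_swap]
  · have hin : ∀ α : ℝ, ∫⁻ a, ENNReal.ofReal K⁻¹ * (Mn *
        ((Ico A (A + L)).indicator (fun _ => 1) (a - K * (η * α) - K * τ (n + 1)) +
        (Ico A (A + L)).indicator (fun _ => 1) (a - K * (η * α) - K * τ n))) =
        ENNReal.ofReal K⁻¹ * (Mn * (ENNReal.ofReal L + ENNReal.ofReal L)) := by
      intro α
      have hm1 : ∀ c : ℝ, Measurable (fun a : ℝ =>
          (Ico A (A + L)).indicator (fun _ => (1 : ℝ≥0∞)) (a - c)) := by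
        intro c
        have h : Measurable ((Ico A (A + L)).indicator (fun _ => (1 : ℝ≥0∞))) :=
          measurable_const.indicator measurableSet_Ico
        exact h.comp (by fun_prop)
      have e2 : ∀ (a c d : ℝ), a - c - d = a - (c + d) := fun a c d => by ring
      simp only [e2]
      have hadd : Measurable (fun a : ℝ =>
          (Ico A (A + L)).indicator (fun _ => (1 : ℝ≥0∞)) (a - (K * (η * α) + K * τ (n + 1))) +
          (Ico A (A + L)).indicator (fun _ => (1 : ℝ≥0∞)) (a - (K * (η * α) + K * τ n))) :=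
        (hm1 _).add (hm1 _)
      rw [lintegral_const_mul' _ _ ENNReal.ofReal_ne_top,
        lintegral_const_mul _ hadd, lintegral_add_left (hm1 _), bad_tr, bad_tr]
    rw [lintegral_congr hin, setLIntegral_const, Real.volume_Icc]
    have e3 : ENNReal.ofReal (4 * (K⁻¹ * L)) =
        ENNReal.ofReal K⁻¹ * (ENNReal.ofReal L + ENNReal.ofReal L) * ENNReal.ofReal (1 - -1) := by
      rw [← ENNReal.ofReal_add hL hL, ← ENNReal.ofReal_mul (by positivity),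
        ← ENNReal.ofReal_mul (by positivity)]
      congr 1
      ring
    rw [e3]
    refine le_of_eq ?_
    ring
  · have h := (((bad_meas A L K η (τ (n + 1))).add (bad_meas A L K η (τ n))).const_mul Mn).const_mul
      (ENNReal.ofReal K⁻¹)
    exact h.aemeasurable

theorem bad_E2 (hEA : StEA) (q i j m : ℤ) (b : ℝ × ℝ → ℝ) (hqm : q ≤ m)
    (hs : ∀ z, z ∉ sqr q i j → b z = 0) (a y : ℝ) :
    E2 m b (a, y) = (cell m ((2 : ℝ) ^ q * j)).indicator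
      (fun _ => ((2 : ℝ) ^ m)⁻¹ * ∫ y', b (a, y')) y := by
  have hin : ∀ y', b (a, y') ≠ 0 → y' ∈ cell m ((2 : ℝ) ^ q * j) := by
    intro y' hy'
    have h1 : (a, y') ∈ sqr q i j := by
      by_contra hc
      exact hy' (hs _ hc)
    have h2 : ⌊y' / (2 : ℝ) ^ q⌋ = j := h1.2
    refine hEA.2.2.1 q m ((2 : ℝ) ^ q * j) hqm ?_
    show ⌊y' / (2 : ℝ) ^ q⌋ = ⌊(2 : ℝ) ^ q * j / (2 : ℝ) ^ q⌋
    rw [h2, bad_floor0]
  show ((2 : ℝ) ^ m)⁻¹ * ∫ y' in cell m y, b (a, y') = _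
  by_cases hy : y ∈ cell m ((2 : ℝ) ^ q * j)
  · rw [indicator_of_mem hy, hEA.1 m _ _ hy]
    rw [setIntegral_eq_integral_of_forall_compl_eq_zero]
    intro y' hy'
    by_contra hc
    exact hy' (hin y' hc)
  · rw [indicator_of_notMem hy, setIntegral_eq_zero_of_forall_eq_zero, mul_zero]
    intro y' hy'
    by_contra hc
    have h1 := hin y' hc
    have h2 := hEA.1 m _ _ hy'
    have h3 := hEA.1 m _ _ h1
    rw [h2] at h3
    exact hy (h3 ▸ (hEA.2.1 m y).2.1)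

/-- the bound for levels above the side of the square -/
theorem bad_B (hEA : StEA) (hEB : StEB) (hRHO : StRHO) (τ : ℕ → ℝ) (m₀ : ℕ) (hτ : Seq τ m₀)
    (n : ℕ) (q i j k m : ℤ) (b : ℝ × ℝ → ℝ) (hb : BR b) (hs : ∀ z, z ∉ sqr q i j → b z = 0)
    (hb0 : ∫ z, b z = 0) (hqm : q ≤ m) :
    ∫⁻ z, ‖Rh (rho τ m₀ n) k (E2 m b) z‖ₑ ≤
      ENNReal.ofReal (4 * (((2 : ℝ) ^ k)⁻¹ * (2 : ℝ) ^ q)) * ∫⁻ z, ‖b z‖ₑ := by
  have hbi : Integrable b := (hEB.1 b hb).2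
  obtain ⟨e, he⟩ : ∃ e : ℝ → ℝ, ∀ a, e a = ∫ y', b (a, y') := ⟨_, fun _ => rfl⟩
  have hvol : (volume : Measure (ℝ × ℝ)) = (volume : Measure ℝ).prod volume := rfl
  have hq0 : (0 : ℝ) < (2 : ℝ) ^ q := by positivity
  have hm0 : (0 : ℝ) < (2 : ℝ) ^ m := by positivity
  -- properties of `e`
  have heq : ∀ a, e a = (2 : ℝ) ^ q * E2 q b (a, (2 : ℝ) ^ q * j) := by
    intro a
    rw [bad_E2 hEA q i j q b le_rfl hs, indicator_of_mem (hEA.2.1 q _).2.1, he]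
    field_simp
  obtain ⟨⟨hEm, K, hKb, hKs⟩, _⟩ := hEB.2.2.2.1 q b hb
  have hem : Measurable e := by
    have : e = fun a => (2 : ℝ) ^ q * E2 q b (a, (2 : ℝ) ^ q * j) := funext heq
    rw [this]
    exact (hEm.comp (by fun_prop)).const_mul _
  have heb : ∃ K' : ℝ, ∀ x, |e x| ≤ K' := by
    refine ⟨(2 : ℝ) ^ q * K, fun x => ?_⟩
    rw [heq, abs_mul, abs_of_pos hq0]
    exact mul_le_mul_of_nonneg_left (hKb _) hq0.le
  have hei : Integrable e := by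
    have : e = fun a => ∫ y', b (a, y') := funext he
    rw [this]
    exact Integrable.integral_prod_left (hvol ▸ hbi)
  have he0 : ∫ x, e x = 0 := by
    rw [← hb0, hvol, integral_prod b (hvol ▸ hbi)]
    exact integral_congr_ae (Eventually.of_forall he)
  have hes : ∀ x, x ∉ Ico ((2 : ℝ) ^ q * i) ((2 : ℝ) ^ q * i + (2 : ℝ) ^ q) → e x = 0 := by
    intro x hx
    rw [he]
    have : ∀ y', b (x, y') = 0 := by
      intro y'
      refine hs _ fun hc => hx ?_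
      exact (bad_floor q i x).1 hc.1
    simp [this]
  have hen : ∫⁻ x, ‖e x‖ₑ ≤ ∫⁻ z, ‖b z‖ₑ := by
    rw [hvol, lintegral_prod _ hb.1.enorm.aemeasurable]
    refine lintegral_mono fun a => ?_
    rw [he]
    exact enorm_integral_le_lintegral_enorm _
  -- the function
  have hR : ∀ a y, Rh (rho τ m₀ n) k (E2 m b) (a, y) =
      (cell m ((2 : ℝ) ^ q * j)).indicator
        (fun _ => ((2 : ℝ) ^ m)⁻¹ * ∫ s, e (a - (2 : ℝ) ^ k * s) ∂(rho τ m₀ n)) y := by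
    intro a y
    show ∫ s, E2 m b (a - (2 : ℝ) ^ k * s, y) ∂(rho τ m₀ n) = _
    simp only [bad_E2 hEA q i j m b hqm hs]
    by_cases hy : y ∈ cell m ((2 : ℝ) ^ q * j)
    · simp only [indicator_of_mem hy]
      rw [integral_const_mul]
      congr 1
      exact integral_congr_ae (Eventually.of_forall fun s => (he _).symm)
    · simp only [indicator_of_notMem hy, integral_zero]
  have hBR1 : BR (Rh (rho τ m₀ n) k (E2 m b)) :=
    (hRHO τ m₀ hτ).2.2.1 n k (E2 m b) (hEB.2.2.2.1 m b hb).1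
  rw [hvol, lintegral_prod _ hBR1.1.enorm.aemeasurable, ← hvol]
  have hin : ∀ a : ℝ, ∫⁻ y, ‖Rh (rho τ m₀ n) k (E2 m b) (a, y)‖ₑ =
      ‖∫ s, e (a - (2 : ℝ) ^ k * s) ∂(rho τ m₀ n)‖ₑ := by
    intro a
    simp only [hR, enorm_indicator_eq_indicator_enorm]
    rw [lintegral_indicator (hEA.2.1 m _).1, setLIntegral_const, (hEA.2.1 m _).2.2.1, enorm_mul]
    have h1 : ‖((2 : ℝ) ^ m)⁻¹‖ₑ = ENNReal.ofReal (((2 : ℝ) ^ m)⁻¹) := by
      rw [Real.enorm_eq_ofReal (by positivity)]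
    rw [h1, mul_assoc, mul_comm ‖∫ s, e (a - (2 : ℝ) ^ k * s) ∂(rho τ m₀ n)‖ₑ, ← mul_assoc,
      ← ENNReal.ofReal_mul (by positivity), inv_mul_cancel₀ hm0.ne', ENNReal.ofReal_one, one_mul]
  rw [lintegral_congr hin]
  refine (bad_u τ m₀ hτ n k e _ _ hq0.le hem heb hei he0 hes).trans ?_
  exact mul_le_mul_right hen _

theorem bad_A (hEB : StEB) (hRHO : StRHO) (τ : ℕ → ℝ) (m₀ : ℕ) (hτ : Seq τ m₀)
    (n : ℕ) (k m : ℤ) (b : ℝ × ℝ → ℝ) (hb : BR b) :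
    ∫⁻ z, ‖Rh (rho τ m₀ n) k (E2 m b) z‖ₑ ≤
      ENNReal.ofReal (2 * (τ n - τ (n + 1))) * ∫⁻ z, ‖b z‖ₑ := by
  have h1 := (hRHO τ m₀ hτ).2.2.2.1 n k 1 (E2 m b) le_rfl (hEB.2.2.2.1 m b hb).1
  simp only [ENNReal.rpow_one, Real.rpow_one] at h1
  exact h1.trans (mul_le_mul_right (hEB.2.2.2.2.2.2.2.1 m b hb) _)

theorem bad_V (hEB : StEB) (hRHO : StRHO) (τ : ℕ → ℝ) (m₀ : ℕ) (hτ : Seq τ m₀)
    (n : ℕ) (k : ℤ) (b : ℝ × ℝ → ℝ) (hb : BR b) :
    ∫⁻ z, ‖Vc τ m₀ k n b z‖ₑ ≤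
      (∫⁻ z, ‖Rh (rho τ m₀ n) k (E2 (k - (m₀ : ℤ) - (n : ℤ) + 2) b) z‖ₑ) +
      ∫⁻ z, ‖Rh (rho τ m₀ n) k (E2 (k - (m₀ : ℤ) + 2) b) z‖ₑ := by
  obtain ⟨g, hg⟩ : ∃ g : ℝ × ℝ → ℝ, g = E2 (k - (m₀ : ℤ) - (n : ℤ) + 2) b := ⟨_, rfl⟩
  obtain ⟨h, hh⟩ : ∃ h : ℝ × ℝ → ℝ, h = E2 (k - (m₀ : ℤ) + 2) b := ⟨_, rfl⟩
  have hgB : BR g := by rw [hg]; exact (hEB.2.2.2.1 _ b hb).1
  have hhB : BR h := by rw [hh]; exact (hEB.2.2.2.1 _ b hb).1
  have hd : BR (fun z => g z - h z) := (hEB.2.1 g h hgB hhB).2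
  rw [← hg, ← hh]
  have hV : ∀ z, Vc τ m₀ k n b z = Rh (rho τ m₀ n) k g z - Rh (rho τ m₀ n) k h z := by
    intro z
    have h1 := (hRHO τ m₀ hτ).2.2.2.2.2.2.1 n k (fun z => g z - h z) h z hd hhB
    have h2 : (fun w => g w - h w + h w) = g := by funext w; ring
    rw [h2] at h1
    rw [h1]
    unfold Vc
    rw [← hg, ← hh]
    ring
  have hRg : BR (Rh (rho τ m₀ n) k g) := (hRHO τ m₀ hτ).2.2.1 n k g hgB
  rw [← lintegral_add_left hRg.1.enorm]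
  refine lintegral_mono fun z => ?_
  rw [hV]
  exact enorm_sub_le

theorem bad_supp (hEA : StEA) (q i j m : ℤ) (b : ℝ × ℝ → ℝ) (hm : m ≤ q + 2)
    (hs : ∀ z, z ∉ sqr q i j → b z = 0) (z : ℝ × ℝ) (hz : E2 m b z ≠ 0) :
    (2 : ℝ) ^ q * i ≤ z.1 ∧ z.1 < (2 : ℝ) ^ q * i + (2 : ℝ) ^ q ∧
      |z.2 - (2 : ℝ) ^ q * j| ≤ 5 * (2 : ℝ) ^ q := by
  have h1 : ∃ y ∈ cell m z.2, b (z.1, y) ≠ 0 := by
    by_contra hc
    push Not at hc
    apply hz
    show ((2 : ℝ) ^ m)⁻¹ * ∫ y' in cell m z.2, b (z.1, y') = 0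
    rw [setIntegral_eq_zero_of_forall_eq_zero hc, mul_zero]
  obtain ⟨y, hy, hby⟩ := h1
  have h2 : (z.1, y) ∈ sqr q i j := by
    by_contra hc
    exact hby (hs _ hc)
  have h3 := (bad_floor q i z.1).1 h2.1
  have h4 := (bad_floor q j y).1 h2.2
  have h5 := (hEA.2.1 m z.2).2.2.2 hy
  rw [mem_Icc] at h5
  have hq0 : (0 : ℝ) < (2 : ℝ) ^ q := by positivity
  have h6 : (2 : ℝ) ^ m ≤ 4 * (2 : ℝ) ^ q := by
    calc (2 : ℝ) ^ m ≤ (2 : ℝ) ^ (q + 2) := zpow_le_zpow_right₀ (by norm_num) hm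
      _ = 4 * (2 : ℝ) ^ q := by
          rw [zpow_add₀ (by norm_num)]
          norm_num
          ring
  refine ⟨h3.1, h3.2, ?_⟩
  rw [abs_le]
  constructor <;> linarith [h4.1, h4.2, h5.1, h5.2]

theorem bad_a (hEA : StEA) (hRHO : StRHO) (τ : ℕ → ℝ) (m₀ : ℕ) (hτ : Seq τ m₀) (n : ℕ)
    (q i j : ℤ) (b : ℝ × ℝ → ℝ) (hs : ∀ z, z ∉ sqr q i j → b z = 0) (k : ℤ) (hk : k ≤ q)
    (z : ℝ × ℝ) (hz : Vc τ m₀ k n b z ≠ 0) :
    |z.1 - (2 : ℝ) ^ q * i| ≤ 8 * (2 : ℝ) ^ q ∧ |z.2 - (2 : ℝ) ^ q * j| ≤ 8 * (2 : ℝ) ^ q := by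
  have h1 : ∃ s ∈ Icc (-2 : ℝ) 2, E2 (k - (m₀ : ℤ) - (n : ℤ) + 2) b (z.1 - (2 : ℝ) ^ k * s, z.2) -
      E2 (k - (m₀ : ℤ) + 2) b (z.1 - (2 : ℝ) ^ k * s, z.2) ≠ 0 := by
    by_contra hc
    push Not at hc
    apply hz
    show ∫ s, (E2 (k - (m₀ : ℤ) - (n : ℤ) + 2) b (z.1 - (2 : ℝ) ^ k * s, z.2) -
      E2 (k - (m₀ : ℤ) + 2) b (z.1 - (2 : ℝ) ^ k * s, z.2)) ∂(rho τ m₀ n) = 0
    refine integral_eq_zero_of_ae ?_
    refine measure_mono_null ?_ ((hRHO τ m₀ hτ).2.1 n)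
    intro s hs' hs2
    exact hs' (hc s hs2)
  obtain ⟨s, hs2, hne⟩ := h1
  have hq0 : (0 : ℝ) < (2 : ℝ) ^ q := by positivity
  have hk0 : (0 : ℝ) < (2 : ℝ) ^ k := by positivity
  have hkq : (2 : ℝ) ^ k ≤ (2 : ℝ) ^ q := zpow_le_zpow_right₀ (by norm_num) hk
  have h2 : (2 : ℝ) ^ q * i ≤ z.1 - (2 : ℝ) ^ k * s ∧
      z.1 - (2 : ℝ) ^ k * s < (2 : ℝ) ^ q * i + (2 : ℝ) ^ q ∧
      |z.2 - (2 : ℝ) ^ q * j| ≤ 5 * (2 : ℝ) ^ q := by
    by_cases hA : E2 (k - (m₀ : ℤ) - (n : ℤ) + 2) b (z.1 - (2 : ℝ) ^ k * s, z.2) ≠ 0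
    · exact bad_supp hEA q i j _ b (by omega) hs _ hA
    · push Not at hA
      have hB : E2 (k - (m₀ : ℤ) + 2) b (z.1 - (2 : ℝ) ^ k * s, z.2) ≠ 0 := by
        intro hB
        apply hne
        rw [hA, hB, sub_zero]
      exact bad_supp hEA q i j _ b (by omega) hs _ hB
  have h3 : |(2 : ℝ) ^ k * s| ≤ 2 * (2 : ℝ) ^ q := by
    rw [abs_mul, abs_of_pos hk0]
    have : |s| ≤ 2 := abs_le.2 ⟨hs2.1, hs2.2⟩
    calc (2 : ℝ) ^ k * |s| ≤ (2 : ℝ) ^ q * 2 :=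
          mul_le_mul hkq this (abs_nonneg _) hq0.le
      _ = 2 * (2 : ℝ) ^ q := by ring
  rw [abs_le] at h3
  refine ⟨?_, ?_⟩
  · rw [abs_le]
    constructor <;> linarith [h2.1, h2.2.1, h3.1, h3.2]
  · linarith [h2.2.2]

theorem bad_sum (f : ℕ → ℝ≥0∞) (N : ℝ≥0∞) (K : ℕ) (lam : ℝ) (hlam : 0 ≤ lam)
    (h1 : ∀ l, f l ≤ ENNReal.ofReal (4 * lam) * N)
    (h2 : ∀ l, f (l + K) ≤ ENNReal.ofReal (8 * (2⁻¹ : ℝ) ^ (K + 1) * (2⁻¹ : ℝ) ^ l) * N) :
    ∑' l, f l ≤ ENNReal.ofReal (40 * (K * lam + (2⁻¹ : ℝ) ^ K)) * N := by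
  rw [← (ENNReal.summable (f := fun l => f (l + K))).sum_add_tsum_nat_add']
  have a1 : ∑ l ∈ Finset.range K, f l ≤ ENNReal.ofReal (4 * (K * lam)) * N := by
    calc ∑ l ∈ Finset.range K, f l ≤ ∑ l ∈ Finset.range K, ENNReal.ofReal (4 * lam) * N :=
          Finset.sum_le_sum fun l _ => h1 l
      _ = ENNReal.ofReal (4 * (K * lam)) * N := by
          rw [Finset.sum_const, Finset.card_range, nsmul_eq_mul, ← mul_assoc]
          congr 1
          rw [show (4 * ((K : ℝ) * lam)) = K * (4 * lam) by ring,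
            ENNReal.ofReal_mul (Nat.cast_nonneg _), ENNReal.ofReal_natCast]
  have a2 : ∑' l, f (l + K) ≤ ENNReal.ofReal (8 * (2⁻¹ : ℝ) ^ K) * N := by
    calc ∑' l, f (l + K) ≤ ∑' l : ℕ, ENNReal.ofReal (8 * (2⁻¹ : ℝ) ^ (K + 1) * (2⁻¹ : ℝ) ^ l) * N :=
          ENNReal.tsum_le_tsum h2
      _ = (∑' l : ℕ, ENNReal.ofReal (8 * (2⁻¹ : ℝ) ^ (K + 1) * (2⁻¹ : ℝ) ^ l)) * N := by
          rw [ENNReal.tsum_mul_right]
      _ = ENNReal.ofReal (8 * (2⁻¹ : ℝ) ^ K) * N := by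
          congr 1
          rw [← ENNReal.ofReal_tsum_of_nonneg (fun l => by positivity)
            ((summable_geometric_of_lt_one (by norm_num) (by norm_num)).mul_left _),
            tsum_mul_left, tsum_geometric_of_lt_one (by norm_num) (by norm_num)]
          congr 1
          rw [pow_succ]
          ring
  refine (add_le_add a1 a2).trans ?_
  rw [← add_mul, ← ENNReal.ofReal_add (by positivity) (by positivity)]
  refine mul_le_mul_left (ENNReal.ofReal_le_ofReal ?_) _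
  have : 0 ≤ (K : ℝ) * lam := by positivity
  have : (0 : ℝ) ≤ (2⁻¹ : ℝ) ^ K := by positivity
  linarith

theorem hBAD (hEA : StEA) (hEB : StEB) (hRHO : StRHO) : StBAD := by
  intro τ m₀ hτ n q i j b hb hs hb0
  refine ⟨fun k hk z hz => bad_a hEA hRHO τ m₀ hτ n q i j b hs k hk z hz, ?_⟩
  have hlam : 0 ≤ τ n - τ (n + 1) := by
    have := hτ.1 (Nat.lt_succ_self n)
    linarith
  have hinj : Function.Injective (fun l : ℕ => q + 1 + (l : ℤ)) := by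
    intro l l' h
    have : q + 1 + (l : ℤ) = q + 1 + (l' : ℤ) := h
    omega
  have hsup : Function.support (fun k : ℤ => if q < k then ∫⁻ z, ‖Vc τ m₀ k n b z‖ₑ else 0) ⊆
      range (fun l : ℕ => q + 1 + (l : ℤ)) := by
    intro k hk
    rw [Function.mem_support] at hk
    have hqk : q < k := by
      by_contra hc
      exact hk (if_neg hc)
    refine ⟨(k - q - 1).toNat, ?_⟩
    have : 0 ≤ k - q - 1 := by omega
    show q + 1 + (((k - q - 1).toNat : ℕ) : ℤ) = k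
    rw [Int.toNat_of_nonneg this]
    ring
  rw [← hinj.tsum_eq hsup]
  have hif : ∀ l : ℕ, (if q < q + 1 + (l : ℤ) then
      ∫⁻ z, ‖Vc τ m₀ (q + 1 + (l : ℤ)) n b z‖ₑ else 0) =
      ∫⁻ z, ‖Vc τ m₀ (q + 1 + (l : ℤ)) n b z‖ₑ := fun l => if_pos (by omega)
  simp only [hif]
  have hfin := bad_sum (fun l : ℕ => ∫⁻ z, ‖Vc τ m₀ (q + 1 + (l : ℤ)) n b z‖ₑ) (∫⁻ z, ‖b z‖ₑ)
    (m₀ + n) (τ n - τ (n + 1)) hlam ?_ ?_
  · push_cast at hfin
    exact hfin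
  · intro l
    refine (bad_V hEB hRHO τ m₀ hτ n _ b hb).trans ?_
    refine (add_le_add (bad_A hEB hRHO τ m₀ hτ n _ _ b hb)
      (bad_A hEB hRHO τ m₀ hτ n _ _ b hb)).trans ?_
    rw [← add_mul, ← ENNReal.ofReal_add (by positivity) (by positivity)]
    refine le_of_eq ?_
    congr 2
    ring
  · intro l
    refine (bad_V hEB hRHO τ m₀ hτ n _ b hb).trans ?_
    refine (add_le_add (bad_B hEA hEB hRHO τ m₀ hτ n q i j _ _ b hb hs hb0 (by push_cast; omega))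
      (bad_B hEA hEB hRHO τ m₀ hτ n q i j _ _ b hb hs hb0 (by push_cast; omega))).trans ?_
    rw [← add_mul, ← ENNReal.ofReal_add (by positivity) (by positivity)]
    refine le_of_eq ?_
    congr 2
    have h2 : ((2 : ℝ) ^ (q + 1 + ((l + (m₀ + n) : ℕ) : ℤ)))⁻¹ * (2 : ℝ) ^ q =
        (2⁻¹ : ℝ) ^ (m₀ + n + 1) * (2⁻¹ : ℝ) ^ l := by
      rw [← pow_add, show q + 1 + ((l + (m₀ + n) : ℕ) : ℤ) = q + ((m₀ + n + 1 + l : ℕ) : ℤ) by
        push_cast; ring, zpow_add₀ (by norm_num), zpow_natCast, inv_pow, mul_inv]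
      have : (2 : ℝ) ^ q ≠ 0 := by positivity
      field_simp
    rw [h2]
    ring

end Pool.Agent.Helper15.LM2
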